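import Mathlib
import Pool.Agent.LGO.G.Defs
import Pool.Agent.LGO.H.Core
import Pool.Agent.LGO.U.BDef

/-!
# LGO/GM: the certificate of a rational function in `k₀` coordinates

As `LGO/T/Defs.lean`: `Wt V i P Q b k`: the function `W = P / Q` on `V` satisfies a monic equation over the polynomials in `x_b`, with a coefficient of
`W ^ j` of degree at most `k (r - j)`.
-/

namespace Pool.Agent.LGO.GM

open MvPolynomial Filter Topology Pool.Agent.Hhelper14.ZPL Pool.Agent.LGO Pool.Agent.LGO.U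

/-- the certificate -/
def Wt {n k₀ : ℕ} (V : Set (Fin n → ℂ)) (i : Fin k₀ → Fin n) (P Q : MvPolynomial (Fin k₀) Qb)
    (b : Fin k₀) (k : ℕ) : Prop :=
  ∃ (r : ℕ) (c : ℕ → Polynomial Qb), 0 < r ∧ (∀ j < r, (c j).natDegree ≤ k * (r - j)) ∧
    ∀ x ∈ V, (aeval (x ∘ i) P : ℂ) ^ r + ∑ j ∈ Finset.range r,
      (Polynomial.aeval (x (i b)) (c j) : ℂ) * (aeval (x ∘ i) P : ℂ) ^ j *
        (aeval (x ∘ i) Q : ℂ) ^ (r - j) = 0

end Pool.Agent.LGO.GM
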