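import Mathlib
import Pool.Agent.LGO.GM.Defs
import Pool.Agent.LGO.T.WtC

/-!
# LGO/T: the certificate over the algebraic numbers

PROOF.  `wtC` for `j = i b` and the polynomials `rename i (map (algebraMap Qb ℂ) P)`, `rename i (map (algebraMap Qb ℂ) Q)` (their values at `x` are
`aeval (x ∘ i) P`, `aeval (x ∘ i) Q`): `r` and `c : ℕ → Polynomial ℂ`.  Let `φ : ℂ →ₗ[Qb] Qb` be linear over `Qb` with `φ 1 = 1`
(`LinearMap.exists_leftInverse_of_injective` for `Algebra.linearMap Qb ℂ`).  Put `c' l = Σ_k monomial k (φ (coeff (c l) k))` (`k ≤ natDegree (c l)`), so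
`natDegree (c' l) ≤ natDegree (c l) ≤ k (r - l)`.  At a point `z ∈ V` with coordinates in `Qb` all numbers `P(z)`, `Q(z)`, `z_b` lie in `Qb`, so
`φ` applied to the equation of `wtC` gives `P(z) ^ r + Σ c'_l(z_b) P(z) ^ l Q(z) ^ (r - l) = 0`.  So the polynomial
`P ^ r + Σ_l aeval (X b) (c' l) * P ^ l * Q ^ (r - l)`, renamed by `i`, vanishes at all points of `V` with coordinates in `Qb`; by `exists_Qb_point`
(`Hhelper14/ZPL/KClosed.lean`, with `aeval_coe`) it lies in `vanishingIdeal Qb V`, so it vanishes on `V`.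
-/

namespace Pool.Agent.LGO.GM

open MvPolynomial Pool.Agent.Hhelper14.ZPL
open Pool.Agent.LGO.T (wtC)

variable {k₀ : ℕ}

/-- the polynomial with the coefficients changed by a linear functional -/
private noncomputable def WtQ_cp (φ : ℂ →ₗ[Qb] Qb) (c : Polynomial ℂ) : Polynomial Qb :=
  ∑ k ∈ Finset.range (c.natDegree + 1), Polynomial.monomial k (φ (c.coeff k))

private theorem WtQ_deg (φ : ℂ →ₗ[Qb] Qb) (c : Polynomial ℂ) :
    (WtQ_cp φ c).natDegree ≤ c.natDegree := by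
  unfold WtQ_cp
  refine Polynomial.natDegree_sum_le_of_forall_le _ _ fun k hk => ?_
  refine (Polynomial.natDegree_monomial_le _).trans ?_
  have := Finset.mem_range.mp hk
  omega

private theorem WtQ_eval (φ : ℂ →ₗ[Qb] Qb) (c : Polynomial ℂ) (z : Qb) :
    Polynomial.eval z (WtQ_cp φ c) = φ (c.eval (z : ℂ)) := by
  unfold WtQ_cp
  rw [Polynomial.eval_finsetSum, Polynomial.eval_eq_sum_range, map_sum]
  refine Finset.sum_congr rfl fun k _ => ?_
  rw [Polynomial.eval_monomial]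
  have h : c.coeff k * (z : ℂ) ^ k = (z ^ k : Qb) • c.coeff k := by
    rw [Algebra.smul_def, mul_comm]
    congr 1
  rw [h, map_smul, smul_eq_mul, mul_comm]

theorem wtQ {n : ℕ} {V : Set (Fin n → ℂ)} (hV : Pool.Agent.Hhelper14.ZPL.IsIrredClosed V)
    (hVk : KClosed V) (hdim : Pool.Agent.Hhelper14.ZPL.dim V = 1) (i : Fin k₀ → Fin n) (b : Fin k₀)
    (hb : ∀ c : ℂ, ∃ x ∈ V, x (i b) ≠ c) (P Q : MvPolynomial (Fin k₀) Qb)
    (hQ : ∃ x ∈ V, (aeval (x ∘ i) Q : ℂ) ≠ 0) (k : ℕ) (C : ℝ)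
    {E : Set (Fin n → ℂ)} (hE : E.Finite)
    (h : ∀ x ∈ V, x ∉ E → ‖(aeval (x ∘ i) P : ℂ)‖ ≤
      C * ‖(aeval (x ∘ i) Q : ℂ)‖ * max 1 ‖x (i b)‖ ^ k) : Wt V i P Q b k := by
  classical
  -- the functional
  obtain ⟨φ, hφ⟩ := (Algebra.linearMap Qb ℂ).exists_leftInverse_of_injective
    (LinearMap.ker_eq_bot.mpr (algebraMap Qb ℂ).injective)
  have hφ1 : ∀ a : Qb, φ (a : ℂ) = a := fun a => LinearMap.congr_fun hφ a
  -- values of the renamed polynomials
  have hev : ∀ (R : MvPolynomial (Fin k₀) Qb) (x : Fin n → ℂ),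
      eval x (rename i (MvPolynomial.map (algebraMap Qb ℂ) R)) = (aeval (x ∘ i) R : ℂ) := by
    intro R x
    rw [eval_rename, ← aeval_map_Qb]
    rfl
  obtain ⟨r, c, hr, hc, hx⟩ := wtC hV hdim (i b) hb
    (rename i (MvPolynomial.map (algebraMap Qb ℂ) P))
    (rename i (MvPolynomial.map (algebraMap Qb ℂ) Q)) (by simpa only [hev] using hQ) k C hE
    (by simpa only [hev] using h)
  simp only [hev] at hx
  refine ⟨r, fun l => WtQ_cp φ (c l), hr, fun l hl => (WtQ_deg φ _).trans (hc l hl), ?_⟩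
  set R : MvPolynomial (Fin k₀) Qb := P ^ r + ∑ l ∈ Finset.range r,
    Polynomial.aeval (X b : MvPolynomial (Fin k₀) Qb) (WtQ_cp φ (c l)) * P ^ l * Q ^ (r - l)
    with hR
  have hval : ∀ x : Fin n → ℂ, (aeval x (rename i R) : ℂ) = (aeval (x ∘ i) P : ℂ) ^ r +
      ∑ l ∈ Finset.range r, (Polynomial.aeval (x (i b)) (WtQ_cp φ (c l)) : ℂ) *
        (aeval (x ∘ i) P : ℂ) ^ l * (aeval (x ∘ i) Q : ℂ) ^ (r - l) := by
    intro x
    rw [aeval_rename, hR, map_add, map_pow, map_sum]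
    congr 1
    refine Finset.sum_congr rfl fun l _ => ?_
    rw [map_mul, map_mul, map_pow, map_pow, ← Polynomial.aeval_algHom_apply, aeval_X]
    rfl
  have hmem : rename i R ∈ (vanishingIdeal Qb V : Ideal (MvPolynomial (Fin n) Qb)) := by
    by_contra hcon
    obtain ⟨z, hz, hzne⟩ := exists_Qb_point hVk hcon
    apply hzne
    have h1 := hx _ hz
    have hP : ∀ S : MvPolynomial (Fin k₀) Qb,
        (aeval ((fun j => ((z j : Qb) : ℂ)) ∘ i) S : ℂ) = ((aeval (z ∘ i) S : Qb) : ℂ) := by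
      intro S
      exact aeval_coe (z ∘ i) S
    rw [hP P, hP Q] at h1
    have h2 := congrArg φ h1
    rw [map_zero, map_add, map_sum] at h2
    rw [← h2, aeval_rename, hR, map_add, map_pow, map_sum]
    congr 1
    · rw [← hφ1 ((aeval (z ∘ i)) P ^ r)]
      congr 1
    · refine Finset.sum_congr rfl fun l _ => ?_
      rw [map_mul, map_mul, map_pow, map_pow, ← Polynomial.aeval_algHom_apply, aeval_X,
        Polynomial.coe_aeval_eq_eval, Function.comp_apply, WtQ_eval]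
      have h3 : (c l).eval ((z (i b) : Qb) : ℂ) * ((aeval (z ∘ i) P : Qb) : ℂ) ^ l *
          ((aeval (z ∘ i) Q : Qb) : ℂ) ^ (r - l) =
          ((aeval (z ∘ i) P : Qb) ^ l * (aeval (z ∘ i) Q : Qb) ^ (r - l)) •
            (c l).eval ((z (i b) : Qb) : ℂ) := by
        rw [Algebra.smul_def]
        have h4 : (algebraMap Qb ℂ) ((aeval (z ∘ i) P : Qb) ^ l * (aeval (z ∘ i) Q : Qb) ^ (r - l)) =
            ((aeval (z ∘ i) P : Qb) : ℂ) ^ l * ((aeval (z ∘ i) Q : Qb) : ℂ) ^ (r - l) := by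
          rw [map_mul, map_pow, map_pow]
          rfl
        rw [h4]
        ring
      have h5 := congrArg φ h3
      rw [map_smul, smul_eq_mul] at h5
      refine Eq.trans ?_ h5.symm
      ring
  intro x hxV
  rw [← hval]
  exact (mem_vanishingIdeal_iff.mp hmem) x hxV

end Pool.Agent.LGO.GM
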