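import Mathlib
import Pool.Agent.LGO.GM.Defs
import Pool.Agent.LGO.GM.Ineq

/-!
# LGO/T: use of the certificate

PROOFS.  `Wt.bound`: apply `s` to the equation: with `f = ‖s P(x)‖`, `g = ‖s Q(x)‖`, `M = max 1 ‖s x_b‖`: the conjugates of the coefficients of
the finitely many polynomials `c_j` are bounded (`conj_bdd` in `LGO/G/Ineq.lean`), so `‖s (c_j(x_b))‖ ≤ B M ^ (k (r - j))` and
`f ^ r ≤ B Σ_{j < r} f ^ j Z ^ (r - j)` with `Z = g M ^ k`.  If `f > Z` then the right side is at most `B r f ^ (r - 1) Z`, so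
`f ≤ B r Z`.  So `f ≤ (1 + B r) Z` always.
`Wt.integral`: choose `m > 0` such that `m` times every coefficient of every `c_j`, `j < r`, is integral (they are algebraic numbers:
`IsAlgebraic.exists_integral_multiple` or `exists_integral_multiple`).  Divide the equation by `Q(x) ^ r`: with `W = P(x) / Q(x)`,
`(m W) ^ r + Σ_{j < r} m ^ (r - j) c_j(x_b) (m W) ^ j = 0`, a monic equation with integral coefficients
(`m ^ (r - j) c_j(x_b) = m ^ (r - j - 1) (m c_j(x_b))`, `m c_j(x_b)` is integral because `x_b` is), so `m W` is integral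
(a root of a monic polynomial over the ring of the elements of `ℂ` integral over `ℤ`: `integralClosure ℤ ℂ`, `isIntegral_trans` or
`IsIntegral.of_aeval_monic`).
-/

namespace Pool.Agent.LGO.GM

open MvPolynomial Pool.Agent.Hhelper14.ZPL Pool.Agent.LGO

variable {k₀ : ℕ}

/-- bound for the conjugates of the values of a polynomial -/
private theorem WtUse_pev (p : Polynomial Qb) (e : ℕ) (he : p.natDegree ≤ e) :
    ∃ B : ℝ, 0 ≤ B ∧ ∀ (s : ℂ ≃+* ℂ) (z : ℂ), ‖s (Polynomial.aeval z p : ℂ)‖ ≤ B * max 1 ‖s z‖ ^ e := by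
  choose B hB using fun i : ℕ => conj_bdd (p.coeff i)
  refine ⟨∑ i ∈ Finset.range (p.natDegree + 1), |B i|, Finset.sum_nonneg fun i _ => abs_nonneg _,
    fun s z => ?_⟩
  rw [Polynomial.aeval_eq_sum_range, map_sum, Finset.sum_mul]
  refine (norm_sum_le _ _).trans (Finset.sum_le_sum fun i hi => ?_)
  have hi' : i ≤ e := by
    rw [Finset.mem_range] at hi
    omega
  have e1 : s (p.coeff i • z ^ i) = s (p.coeff i : ℂ) * s z ^ i := by
    rw [Algebra.smul_def, map_mul, map_pow]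
    rfl
  rw [e1, norm_mul, norm_pow]
  have h1 : ‖s (p.coeff i : ℂ)‖ ≤ |B i| := (hB i s).trans (le_abs_self _)
  have h2 : ‖s z‖ ^ i ≤ max 1 ‖s z‖ ^ e :=
    (pow_le_pow_left₀ (norm_nonneg _) (le_max_right _ _) i).trans (pow_le_pow_right₀ (le_max_left _ _) hi')
  exact mul_le_mul h1 h2 (by positivity) (abs_nonneg _)

/-- the elementary estimate -/
private theorem WtUse_real {r : ℕ} (hr : 0 < r) {f Z : ℝ} (hZ : 0 ≤ Z) {B : ℕ → ℝ} (hB : ∀ j, 0 ≤ B j)
    (h : f ^ r ≤ ∑ j ∈ Finset.range r, B j * (f ^ j * Z ^ (r - j))) :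
    f ≤ (1 + ∑ j ∈ Finset.range r, B j) * Z := by
  have hS : 0 ≤ ∑ j ∈ Finset.range r, B j := Finset.sum_nonneg fun j _ => hB j
  rcases le_or_gt f Z with h1 | h1
  · calc f ≤ 1 * Z := by rw [one_mul]; exact h1
      _ ≤ _ := mul_le_mul_of_nonneg_right (by linarith) hZ
  have hf0 : 0 < f := lt_of_le_of_lt hZ h1
  have h2 : f ^ r ≤ (∑ j ∈ Finset.range r, B j) * (f ^ (r - 1) * Z) := by
    refine h.trans ?_
    rw [Finset.sum_mul]
    refine Finset.sum_le_sum fun j hj => mul_le_mul_of_nonneg_left ?_ (hB j)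
    rw [Finset.mem_range] at hj
    have e1 : r - j = (r - 1 - j) + 1 := by omega
    rw [e1, pow_succ, ← mul_assoc]
    refine mul_le_mul_of_nonneg_right ?_ hZ
    calc f ^ j * Z ^ (r - 1 - j) ≤ f ^ j * f ^ (r - 1 - j) :=
          mul_le_mul_of_nonneg_left (pow_le_pow_left₀ hZ h1.le _) (by positivity)
      _ = f ^ (r - 1) := by
          rw [← pow_add]
          congr 1
          omega
  have h3 : f ≤ (∑ j ∈ Finset.range r, B j) * Z := by
    have e2 : f ^ r = f ^ (r - 1) * f := by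
      rw [← pow_succ]
      congr 1
      omega
    rw [e2] at h2
    have hp : 0 < f ^ (r - 1) := by positivity
    refine le_of_mul_le_mul_left ?_ hp
    calc f ^ (r - 1) * f ≤ _ := h2
      _ = _ := by ring
  calc f ≤ (∑ j ∈ Finset.range r, B j) * Z := h3
    _ ≤ _ := mul_le_mul_of_nonneg_right (by linarith) hZ

private theorem WtUse_nat (m : ℕ) : IsIntegral ℤ (m : ℂ) := by
  have h := isIntegral_algebraMap (R := ℤ) (A := ℂ) (x := (m : ℤ))
  simpa using h

/-- common denominator of finitely many algebraic numbers -/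
private theorem WtUse_den (T : Finset ℂ) (hT : ∀ x ∈ T, IsAlgebraic ℚ x) :
    ∃ m : ℕ, 0 < m ∧ ∀ x ∈ T, IsIntegral ℤ ((m : ℂ) * x) := by
  classical
  induction T using Finset.induction_on with
  | empty => exact ⟨1, one_pos, fun x hx => absurd hx (Finset.notMem_empty x)⟩
  | insert a T ha ih =>
    obtain ⟨m, hm, hm'⟩ := ih fun x hx => hT x (Finset.mem_insert_of_mem hx)
    have h1 : IsAlgebraic ℤ a := (IsFractionRing.isAlgebraic_iff ℤ ℚ ℂ).2 (hT a (Finset.mem_insert_self a T))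
    obtain ⟨y, hy, hy'⟩ := h1.exists_integral_multiple
    have hya : IsIntegral ℤ ((y.natAbs : ℂ) * a) := by
      have h3 : IsIntegral ℤ ((y : ℂ) * a) := by
        have := hy'
        rwa [zsmul_eq_mul] at this
      rcases Int.natAbs_eq y with h | h
      · have h4 : (y : ℂ) = (y.natAbs : ℂ) := by
          conv_lhs => rw [h]
          rw [Int.cast_natCast]
        rwa [← h4]
      · have h4 : (y : ℂ) = -(y.natAbs : ℂ) := by
          conv_lhs => rw [h]
          rw [Int.cast_neg, Int.cast_natCast]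
        have h5 := h3.neg
        rwa [h4, neg_mul, neg_neg] at h5
    refine ⟨m * y.natAbs, Nat.mul_pos hm (Int.natAbs_pos.2 hy), fun x hx => ?_⟩
    rw [Nat.cast_mul]
    rcases Finset.mem_insert.1 hx with rfl | hx
    · rw [mul_assoc]
      exact (WtUse_nat m).mul hya
    · have e : (m : ℂ) * (y.natAbs : ℂ) * x = (y.natAbs : ℂ) * ((m : ℂ) * x) := by ring
      rw [e]
      exact (WtUse_nat _).mul (hm' x hx)

/-- a root of a monic polynomial with integral coefficients -/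
private theorem WtUse_root {r : ℕ} (a : ℂ) (d : ℕ → ℂ) (hd : ∀ j < r, IsIntegral ℤ (d j))
    (h : a ^ r + ∑ j ∈ Finset.range r, d j * a ^ j = 0) : IsIntegral ℤ a := by
  classical
  set A := integralClosure ℤ ℂ with hA
  set e : Fin r → A := fun j => ⟨d j, hd j j.2⟩ with he
  set p : Polynomial A := Polynomial.X ^ r + ∑ j : Fin r, Polynomial.C (e j) * Polynomial.X ^ (j : ℕ) with hp
  have hpm : p.Monic := Polynomial.monic_X_pow_add (Polynomial.degree_sum_fin_lt e)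
  have hpa : Polynomial.aeval a p = 0 := by
    rw [hp, map_add, map_pow, Polynomial.aeval_X, map_sum, ← h, Finset.sum_range]
    congr 1
    refine Finset.sum_congr rfl fun j _ => ?_
    rw [map_mul, map_pow, Polynomial.aeval_X, Polynomial.aeval_C]
    rfl
  exact isIntegral_trans (R := ℤ) (A := A) a ⟨p, hpm, hpa⟩

theorem Wt.bound {n : ℕ} {V : Set (Fin n → ℂ)} {i : Fin k₀ → Fin n}
    {P Q : MvPolynomial (Fin k₀) Qb} {b : Fin k₀} {k : ℕ} (h : Wt V i P Q b k) :
    ∃ C : ℝ, 1 ≤ C ∧ ∀ s : ℂ ≃+* ℂ, ∀ x ∈ V, ‖s (aeval (x ∘ i) P : ℂ)‖ ≤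
      C * (‖s (aeval (x ∘ i) Q : ℂ)‖ * max 1 ‖s (x (i b))‖ ^ k) := by
  obtain ⟨r, c, hr, hdeg, heq⟩ := h
  have hB : ∀ j, ∃ B : ℝ, 0 ≤ B ∧ (j < r → ∀ (s : ℂ ≃+* ℂ) (z : ℂ),
      ‖s (Polynomial.aeval z (c j) : ℂ)‖ ≤ B * max 1 ‖s z‖ ^ (k * (r - j))) := by
    intro j
    by_cases hj : j < r
    · obtain ⟨B, hB0, hB⟩ := WtUse_pev (c j) (k * (r - j)) (hdeg j hj)
      exact ⟨B, hB0, fun _ => hB⟩
    · exact ⟨0, le_rfl, fun h => absurd h hj⟩
  choose B hB0 hB using hB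
  refine ⟨1 + ∑ j ∈ Finset.range r, B j, by
    have := Finset.sum_nonneg fun j (_ : j ∈ Finset.range r) => hB0 j
    linarith, fun s x hx => ?_⟩
  refine WtUse_real hr (by positivity) hB0 ?_
  have h1 := congrArg s (heq x hx)
  rw [map_add, map_zero, map_sum, map_pow] at h1
  have h2 : (s (aeval (x ∘ i) P : ℂ)) ^ r = - ∑ j ∈ Finset.range r, s ((Polynomial.aeval (x (i b)) (c j) : ℂ) *
      (aeval (x ∘ i) P : ℂ) ^ j * (aeval (x ∘ i) Q : ℂ) ^ (r - j)) := eq_neg_of_add_eq_zero_left h1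
  rw [← norm_pow, h2, norm_neg]
  refine (norm_sum_le _ _).trans (Finset.sum_le_sum fun j hj => ?_)
  rw [map_mul, map_mul, map_pow, map_pow, norm_mul, norm_mul, norm_pow, norm_pow]
  have h3 := hB j (Finset.mem_range.1 hj) s (x (i b))
  calc ‖s (Polynomial.aeval (x (i b)) (c j) : ℂ)‖ * ‖s (aeval (x ∘ i) P : ℂ)‖ ^ j * ‖s (aeval (x ∘ i) Q : ℂ)‖ ^ (r - j)
      ≤ (B j * max 1 ‖s (x (i b))‖ ^ (k * (r - j))) * ‖s (aeval (x ∘ i) P : ℂ)‖ ^ j *
        ‖s (aeval (x ∘ i) Q : ℂ)‖ ^ (r - j) :=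
        mul_le_mul_of_nonneg_right (mul_le_mul_of_nonneg_right h3 (by positivity)) (by positivity)
    _ = B j * (‖s (aeval (x ∘ i) P : ℂ)‖ ^ j * (‖s (aeval (x ∘ i) Q : ℂ)‖ * max 1 ‖s (x (i b))‖ ^ k) ^ (r - j)) := by
        rw [mul_pow, ← pow_mul]
        ring

theorem Wt.integral {n : ℕ} {V : Set (Fin n → ℂ)} {i : Fin k₀ → Fin n}
    {P Q : MvPolynomial (Fin k₀) Qb} {b : Fin k₀} {k : ℕ} (h : Wt V i P Q b k) :
    ∃ m : ℕ, 0 < m ∧ ∀ x ∈ V, (aeval (x ∘ i) Q : ℂ) ≠ 0 → IsIntegral ℤ (x (i b)) →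
      IsIntegral ℤ ((m : ℂ) * (aeval (x ∘ i) P / aeval (x ∘ i) Q : ℂ)) := by
  classical
  obtain ⟨r, c, hr, hdeg, heq⟩ := h
  obtain ⟨m, hm, hm'⟩ := WtUse_den ((Finset.range r).biUnion fun j =>
    (Finset.range ((c j).natDegree + 1)).image fun l => (((c j).coeff l : Qb) : ℂ)) (by
      intro z hz
      obtain ⟨j, _, hz⟩ := Finset.mem_biUnion.1 hz
      obtain ⟨l, _, rfl⟩ := Finset.mem_image.1 hz
      exact mem_algebraicClosure_iff.1 ((c j).coeff l).2)
  refine ⟨m, hm, fun x hx hQ hint => ?_⟩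
  set W : ℂ := (aeval (x ∘ i) P / aeval (x ∘ i) Q : ℂ) with hW
  refine WtUse_root (r := r) ((m : ℂ) * W) (fun j => (m : ℂ) ^ (r - j) * (Polynomial.aeval (x (i b)) (c j) : ℂ)) ?_ ?_
  · intro j hj
    have e1 : (m : ℂ) ^ (r - j) * (Polynomial.aeval (x (i b)) (c j) : ℂ) =
        (m : ℂ) ^ (r - j - 1) * ∑ l ∈ Finset.range ((c j).natDegree + 1),
          ((m : ℂ) * (((c j).coeff l : Qb) : ℂ)) * x (i b) ^ l := by
      have e2 : r - j = (r - j - 1) + 1 := by omega
      conv_lhs => rw [e2]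
      rw [pow_succ, mul_assoc, Polynomial.aeval_eq_sum_range, Finset.mul_sum]
      congr 1
      refine Finset.sum_congr rfl fun l _ => ?_
      rw [Algebra.smul_def, mul_assoc]
      rfl
    rw [e1]
    refine ((WtUse_nat m).pow _).mul (IsIntegral.sum _ fun l hl => ?_)
    refine (hm' _ ?_).mul (hint.pow l)
    exact Finset.mem_biUnion.2 ⟨j, Finset.mem_range.2 hj, Finset.mem_image.2 ⟨l, hl, rfl⟩⟩
  · have h1 := heq x hx
    have h2 : ((m : ℂ) * W) ^ r + ∑ j ∈ Finset.range r,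
        (m : ℂ) ^ (r - j) * (Polynomial.aeval (x (i b)) (c j) : ℂ) * ((m : ℂ) * W) ^ j =
        ((m : ℂ) / (aeval (x ∘ i) Q : ℂ)) ^ r * ((aeval (x ∘ i) P : ℂ) ^ r + ∑ j ∈ Finset.range r,
          (Polynomial.aeval (x (i b)) (c j) : ℂ) * (aeval (x ∘ i) P : ℂ) ^ j * (aeval (x ∘ i) Q : ℂ) ^ (r - j)) := by
      rw [mul_add, Finset.mul_sum]
      congr 1
      · rw [hW, ← mul_pow]
        congr 1
        ring
      · refine Finset.sum_congr rfl fun j hj => ?_
        rw [Finset.mem_range] at hj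
        obtain ⟨q, hq⟩ : ∃ q, r = j + q := ⟨r - j, by omega⟩
        have e3 : r - j = q := by omega
        rw [e3, hW, hq]
        simp only [mul_pow, div_pow, pow_add]
        field_simp
    rw [h2, h1, mul_zero]

end Pool.Agent.LGO.GM
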